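import Pool.Agent.Q58.LG.CorW

/-!
MP_62070a_ag, Q1: fibrations over curves of genus at least `2`, whose generic fibre is dominated by
covers of subvarieties of generic complete intersections: the curves which dominate the base.

Let `S` be a smooth projective curve of genus at least `2` over an algebraically closed field `k` of
characteristic `0` (so `S` is algebraically hyperbolic), with function field `K`, and let `𝒳 → S` be
a fibration, `𝒳` a closed subvariety of `ℙᴹ × S`. A nonconstant morphism from a smooth projective
curve `C` to `𝒳` which is not contained in a fibre is the same as a finite extension `L₀` of `K` (the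
function field of `C`) and a point `w` of the generic fibre over `L₀`; its degree with respect to the
ample line bundle `O(1) ⊠ A`, where `A` has degree `e` on `S`, is `h(w) + e [L₀ : K]`. Here `h(w)` is
the height of `w` over `L₀` with respect to `O(1)`, `pht k w`, and `canDeg k L₀` is `2 g(C) - 2`.

Let `K0` be a subfield of `K` that is finitely generated over a subfield `k0` of `k`, `V` a closed
subset of `ℙⁿ` defined over `K0`, of dimension at most `m`, and `F_a` forms over `K` of degrees `d_a`,
for `a` in a finite set `A`, whose coefficients are all together algebraically independent over `K0`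
(for `k` uncountable and `k0` countable, this holds for very general families of forms, and also for
the very general forms over `k`). Let `X₀` be the intersection of `V` with the hypersurfaces
`F_a = 0`. We suppose that `2 m + 2 r ≤ ∑ d_a + |A|`.

* Let the generic fibre `Y = {Φ = 0}` be a finite image of a projective variety `W = {Ψ = 0}` over `K`
  with a finite morphism to `X₀`: `G : W → Y` is surjective with fibres of at most `r` points. Then
  there is a constant `α` such that all curves in `𝒳` which are not in the fibres of `𝒳 → S` satisfy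
  `h(w) + e [L₀ : K] ≤ α (2 g - 2)`.
* Let the generic fibre be a projective variety over `K` with generic point `z`, function field `L`,
  and let there be a point `y` of `X₀` over an extension `K'` of `L` of degree at most `r`, such that
  `K'` is algebraic over the field generated over `K` by the ratios of the coordinates of `y`. (That
  is, there is a correspondence, generically finite over both sides, from the generic fibre to a
  subvariety of `X₀`, of degree at most `r` over the generic fibre.) Then the same holds for all the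
  curves in `𝒳` which are not in the fibres and not in a certain proper closed subset
  `{G = 0}` of `𝒳`, which does not contain the generic fibre.

So the conclusion of Q1 holds for these fibrations, in the first case, for all curves which dominate
the base; the curves in the fibres satisfy an inequality of this kind for each fibre, by the
hypothesis of Q1, and what remains is that the constants can be chosen independently of the fibre.
-/

set_option autoImplicit false

namespace Pool.Agent.Results.MP_62070a_ag.HorizontalCurves

open FF MvPolynomial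
open Pool.Agent.W603.LV (canDeg)
open Pool.Agent.W603.PV (pord pht disc ram ram_spec isFF_of_finite)
open Pool.Agent.TH145.MG (DimLE)
open Pool.Agent.W602.GT (IsForm Cone val coords)
open Pool.Agent.Y221.FQ (Mor Onto FibresLe im)
open Pool.Agent.Q58.FI (bc eqs)

/-- Hurwitz: the canonical degree grows at least like the degree. -/
theorem finrank_le {k K L0 : Type} [Field k] [IsAlgClosed k] [CharZero k] [Field K] [Algebra k K]
    [IsFF k K] (hg : 0 < canDeg k K) [Field L0] [Algebra k L0] [Algebra K L0]
    [IsScalarTower k K L0] [FiniteDimensional K L0] :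
    (Module.finrank K L0 : ℤ) ≤ canDeg k L0 := by
  have hff : IsFF k L0 := isFF_of_finite (F := K)
  have h1 := Pool.Agent.Q58.LG.canDeg_ext (k := k) (F := K) (L := L0)
  have h2 : 0 ≤ disc k K L0 := by
    unfold disc
    refine finsum_nonneg fun P => ?_
    have h3 : (1 : ℤ) ≤ ram K P := by
      have := (ram_spec (F := K) P).1
      exact_mod_cast this
    linarith
  have h4 : (Module.finrank K L0 : ℤ) * 1 ≤ Module.finrank K L0 * canDeg k K :=
    mul_le_mul_of_nonneg_left (by linarith) (Int.natCast_nonneg _)
  linarith

theorem result {k0 k K0 K : Type} [Field k0] [Field k] [Field K0] [Field K] [IsAlgClosed k]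
    [CharZero k] [Algebra k0 k] [Algebra k K] [Algebra k0 K] [IsScalarTower k0 k K]
    [Algebra k0 K0] [Algebra K0 K] [IsScalarTower k0 K0 K] [IsFF k K]
    (hfg : ∃ S : Finset K0, IntermediateField.adjoin k0 (S : Set K0) = ⊤)
    -- the base has genus at least `2`
    (hg : 0 < canDeg k K) {n m r M : ℕ}
    -- a closed subset of projective space, of dimension at most `m`
    (V : Set (MvPolynomial (Fin (n + 1)) K0)) (hVh : ∀ f ∈ V, ∃ e, f.IsHomogeneous e)
    (hV : DimLE K0 V m)
    -- forms of degrees `d a` with independent coefficients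
    {A : Type} [Fintype A] {d : A → ℕ} (hd : 2 * m + 2 * r ≤ ∑ a, d a + Fintype.card A)
    (F : A → MvPolynomial (Fin (n + 1)) K) (hF : ∀ a, (F a).IsHomogeneous (d a))
    (hgen : AlgebraicIndependent K0
      fun p : (a : A) × {I : Fin (n + 1) →₀ ℕ // I.degree = d a} => (F p.1).coeff p.2.1) :
    -- the generic fibre is a finite image of a variety which is finite over the intersection
    (∀ {l : ℕ} {κ μ : Type} (Ψ : κ → MvPolynomial (Fin (l + 1)) K) (_ : ∀ e, IsForm (Ψ e))
      (Φ : μ → MvPolynomial (Fin (M + 1)) K) (B : Fin (n + 1) → MvPolynomial (Fin (l + 1)) K)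
      (_ : Mor (bc Ψ) (bc (eqs V F)) (bc B)) (G : Fin (M + 1) → MvPolynomial (Fin (l + 1)) K)
      (_ : Mor (bc Ψ) (bc Φ) (bc G)) (_ : Onto (bc Ψ) (bc Φ) (bc G))
      (_ : FibresLe (bc Ψ) (bc G) r) (eB eG : ℕ) (_ : 1 ≤ eB) (_ : ∀ j, (B j).IsHomogeneous eB)
      (_ : ∀ j, (G j).IsHomogeneous eG) (e : ℕ),
      ∃ α : ℕ, ∀ (L0 : Type) [Field L0] [Algebra k L0] [Algebra K L0] [IsScalarTower k K L0]
        [FiniteDimensional K L0] (w : Fin (M + 1) → L0), w ≠ 0 → (∀ i, aeval w (Φ i) = 0) →
        pht k w + e * Module.finrank K L0 ≤ α * canDeg k L0) ∧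
    -- the generic fibre has a correspondence to the intersection
    (∀ (L : Type) [Field L] [Algebra K L] (z : Fin (M + 1) → L) (_ : z ≠ 0)
      (_ : coords K z = ⊤) (K' : Type) [Field K'] [Algebra K K'] [Algebra L K']
      [IsScalarTower K L K'] [FiniteDimensional L K'] (_ : Module.finrank L K' ≤ r)
      (y : Fin (n + 1) → K') (_ : y ≠ 0) (_ : ∀ i, val y (eqs V F i) = 0)
      (_ : Algebra.IsAlgebraic (coords K y) K') (e : ℕ),
      ∃ G : MvPolynomial (Fin (M + 1)) K, (∃ q, G.IsHomogeneous q) ∧ aeval z G ≠ 0 ∧
        ∃ α : ℕ, ∀ (L0 : Type) [Field L0] [Algebra k L0] [Algebra K L0] [IsScalarTower k K L0]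
          [FiniteDimensional K L0] (w : Fin (M + 1) → L0), w ≠ 0 →
          (∀ P : MvPolynomial (Fin (M + 1)) K, (∃ q, P.IsHomogeneous q) → aeval z P = 0 →
            aeval w P = 0) → aeval w G ≠ 0 →
          pht k w + e * Module.finrank K L0 ≤ α * canDeg k L0) := by
  classical
  have hcard : (Finset.univ : Finset A).card = Fintype.card A := Finset.card_univ
  have hd' : 2 * m + 2 * r ≤ ∑ a, d a + (Finset.univ : Finset A).card := by rwa [hcard]
  have hempty : ∀ (L0 : Type) [Field L0] [Algebra k L0] [Algebra K L0] (w : Fin (M + 1) → L0),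
      {P : Place k L0 | ((0 : ℕ) : ℤ) * pord P w <
        P.ord (aeval w (1 : MvPolynomial (Fin (M + 1)) K))} = ∅ := by
    intro L0 _ _ _ w
    rw [Set.eq_empty_iff_forall_notMem]
    intro P hP
    have hP' : ((0 : ℕ) : ℤ) * pord P w < P.ord (aeval w (1 : MvPolynomial (Fin (M + 1)) K)) := hP
    rw [map_one, P.ord_one, Nat.cast_zero, zero_mul] at hP'
    exact lt_irrefl _ hP'
  refine ⟨?_, ?_⟩
  · intro l κ μ Ψ hΨ Φ B hB G hG hon hfib eB eG heB hBe hGe e
    have hB' : Mor (bc Ψ) (bc (eqs V fun c : {a // a ∈ (Finset.univ : Finset A)} => F c.1)) (bc B) :=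
      ⟨hB.form, fun x hx => ⟨(hB.maps x hx).1, by
        rintro (f | c)
        · exact (hB.maps x hx).2 (Sum.inl f)
        · exact (hB.maps x hx).2 (Sum.inr c.1)⟩⟩
    obtain ⟨C0, hC0⟩ := Pool.Agent.Q58.LG.vojta_im (k := k) hfg Finset.univ hd' V hVh hV hF hgen hΨ hB' hG hon
      hfib (H := 1) (h := 0) (isHomogeneous_one _ _) (fun b hb => absurd (Finset.mem_univ b) hb)
      (fun x _ _ b hb => absurd (Finset.mem_univ b) hb) hBe hGe
    refine ⟨eG + C0 + e, fun L0 _ _ _ _ _ w hw hwΦ => ?_⟩
    have hff : IsFF k L0 := isFF_of_finite (F := K)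
    have h1 := hC0 L0 w hw hwΦ (by rw [map_one]; exact one_ne_zero)
    rw [hempty, Set.ncard_empty, Nat.cast_zero, add_zero] at h1
    have h2 := finrank_le (k := k) (K := K) (L0 := L0) hg
    have h3 : 0 ≤ pht k w := Pool.Agent.Y221.AH.pht_nonneg (Function.ne_iff.1 hw)
    have h4 : (1 : ℤ) ≤ eB * ((∑ a, d a + (Finset.univ : Finset A).card + 1 : ℕ) - 2 * m -
        2 * r) := by
      have h5 : (1 : ℤ) ≤ (∑ a, d a + (Finset.univ : Finset A).card + 1 : ℕ) - 2 * m - 2 * r := by
        push_cast
        have : (2 * m + 2 * r : ℤ) ≤ ∑ a, (d a : ℤ) + (Finset.univ : Finset A).card := by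
          exact_mod_cast hd'
        linarith
      have h6 : (1 : ℤ) ≤ eB := by exact_mod_cast heB
      nlinarith
    have h5 := (le_mul_of_one_le_left h3 h4).trans h1
    have h6 : (C0 : ℤ) * Module.finrank K L0 ≤ C0 * canDeg k L0 :=
      mul_le_mul_of_nonneg_left h2 (Int.natCast_nonneg _)
    have h7 : (e : ℤ) * Module.finrank K L0 ≤ e * canDeg k L0 :=
      mul_le_mul_of_nonneg_left h2 (Int.natCast_nonneg _)
    push_cast
    linarith
  · intro L _ _ z hz hzL K' _ _ _ _ _ hr y hy hyX halg e
    obtain ⟨G, hGh, hGz, A0, C0, hC⟩ := Pool.Agent.Q58.LG.vojta_proj (k := k) hfg Finset.univ hVh hV hd' hF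
      hgen hz hzL (H := 1) (h := 0) (isHomogeneous_one _ _) hr hy (by
        rintro (f | c)
        · exact hyX (Sum.inl f)
        · exact hyX (Sum.inr c.1)) halg (fun b hb => absurd (Finset.mem_univ b) hb)
    refine ⟨G, hGh, hGz, A0 + C0 + e, fun L0 _ _ _ _ _ w hw hwX hwG => ?_⟩
    have h1 := hC L0 w hw hwX hwG (by rw [map_one]; exact one_ne_zero)
    rw [hempty, Set.ncard_empty, Nat.cast_zero, add_zero] at h1
    have h2 := finrank_le (k := k) (K := K) (L0 := L0) hg
    have h6 : (C0 : ℤ) * Module.finrank K L0 ≤ C0 * canDeg k L0 :=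
      mul_le_mul_of_nonneg_left h2 (Int.natCast_nonneg _)
    have h7 : (e : ℤ) * Module.finrank K L0 ≤ e * canDeg k L0 :=
      mul_le_mul_of_nonneg_left h2 (Int.natCast_nonneg _)
    push_cast
    linarith

end Pool.Agent.Results.MP_62070a_ag.HorizontalCurves
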